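import Pool.Agent.Helper42.QD.Stmts

set_option autoImplicit false

/-! MP_75837a_al: a non-zero subspace of `Sp c` stable under the Borel subgroup is everything. -/

namespace Pool.Agent.Helper42.QD

open VD

section
variable {D k : Type} [DivisionRing D] [Field k] {c : VD D k}

theorem k4_psi (f : Sp c) (b : D) : ∃ g : Sp c, ∀ x, g.1 x = c.psi (x * b) * f.1 x := by
  obtain ⟨f0, m, hm, h1, h2⟩ := f.2
  refine ⟨⟨fun x => c.psi (x * b) * f.1 x, ?_, m + (c.v b).natAbs + m + 1, by omega, ?_, ?_⟩,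
    fun _ => rfl⟩
  · change c.psi (0 * b) * f.1 0 = 0
    rw [f0, mul_zero]
  · intro x u hu
    have hu' : c.P m u := P_mono (by omega) hu
    change c.psi (x * (1 + u) * b) * f.1 (x * (1 + u)) = c.psi (x * b) * f.1 x
    rw [h1 x u hu']
    by_cases hx : f.1 x = 0
    · rw [hx, mul_zero, mul_zero]
    · have h3 := (h2 x hx).1
      have h4 : x * (1 + u) * b = x * b + x * u * b := by noncomm_ring
      have h5 : c.P 1 (x * u * b) := by
        have h6 : c.P (-(m : ℤ)) x := Or.inr h3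
        refine P_mul' (P_mul h6 hu) (P_self (c := c) (x := b)) ?_
        omega
      rw [h4, AddChar.map_add_eq_mul, c.psi_P _ h5, mul_one]
  · intro x hx
    have h3 : f.1 x ≠ 0 := by
      intro h
      apply hx
      change c.psi (x * b) * f.1 x = 0
      rw [h, mul_zero]
    have := h2 x h3
    omega

theorem k4_cut [Finite k] {W : Submodule ℂ (Sp c)}
    (hN : ∀ (b : D) (f g : Sp c), f ∈ W → (∀ x, g.1 x = c.psi (x * b) * f.1 x) → g ∈ W)
    (i : ℤ) {f : Sp c} (hf : f ∈ W) (x : D) :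
    ∃ f' ∈ W, f'.1 = cut c x (1 - i) f.1 := by
  classical
  obtain ⟨m, hm, hm1, hm2⟩ := f.2.2
  obtain ⟨n, hn⟩ : ∃ n : ℕ, (1 - i - n ≤ -m) ∧ (1 - i - n ≤ c.v x) :=
    ⟨(1 - i).natAbs + m + (c.v x).natAbs, by omega, by omega⟩
  obtain ⟨S, hS0, hS1, hS2, hS3⟩ := exists_reps c i n
  have hc : (S.card : ℂ) ≠ 0 := by exact_mod_cast hS0.card_pos.ne'
  choose g hg using fun b : D => k4_psi f b
  refine ⟨(S.card : ℂ)⁻¹ • ∑ b ∈ S, c.psi (-(x * b)) • g b, ?_, ?_⟩
  · exact W.smul_mem _ (W.sum_mem fun b _ => W.smul_mem _ (hN b f (g b) hf (hg b)))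
  · funext y
    have h1 : ((S.card : ℂ)⁻¹ • ∑ b ∈ S, c.psi (-(x * b)) • g b : Sp c).1 y =
        (S.card : ℂ)⁻¹ * ((∑ b ∈ S, c.psi ((y - x) * b)) * f.1 y) := by
      have h2 : (∑ b ∈ S, c.psi (-(x * b)) • g b : Sp c).1 y =
          ∑ b ∈ S, c.psi (-(x * b)) * (c.psi (y * b) * f.1 y) := by
        rw [Submodule.coe_sum, Finset.sum_apply]
        refine Finset.sum_congr rfl fun b _ => ?_
        rw [← hg]
        rfl
      change (S.card : ℂ)⁻¹ * (∑ b ∈ S, c.psi (-(x * b)) • g b : Sp c).1 y = _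
      rw [h2, Finset.sum_mul]
      congr 1
      refine Finset.sum_congr rfl fun b _ => ?_
      rw [← mul_assoc, ← AddChar.map_add_eq_mul]
      congr 2
      noncomm_ring
    rw [h1, cut]
    by_cases hy : f.1 y = 0
    · rw [hy]; simp
    · have h3 := hm2 y hy
      have h4 : c.P (1 - i - n) (y - x) := P_sub (Or.inr (by omega)) (Or.inr (by omega))
      rw [chsum hS1 hS2 hS3 h4]
      split_ifs with h5
      · rw [← mul_assoc, inv_mul_cancel₀ hc, one_mul]
      · rw [zero_mul, mul_zero]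

/-- Local constancy in additive form. -/
theorem k4_loc {g : D → ℂ} {m : ℕ} (h1 : ∀ x u, c.P m u → g (x * (1 + u)) = g x) {x y : D}
    (hx : x ≠ 0) (h : c.P (c.v x + m) (y - x)) : g y = g x := by
  have h2 : c.P m (x⁻¹ * (y - x)) := P_mul' (P_inv (c := c) hx) h (by omega)
  have h3 := h1 x _ h2
  rw [mul_add, mul_one, mul_inv_cancel_left₀ hx, add_sub_cancel] at h3
  exact h3

end

theorem st_K4 : ST_K4 := by
  intro D k _ _ _ c om W hW hN hT
  classical
  obtain ⟨f, hf, hf0⟩ := hW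
  obtain ⟨f00, m, hm, h1, h2⟩ := f.2
  obtain ⟨x0, hx0⟩ : ∃ x, f.1 x ≠ 0 := by
    by_contra h
    push Not at h
    exact hf0 (Subtype.ext (funext h))
  have hx00 : x0 ≠ 0 := by
    intro h
    rw [h] at hx0
    exact hx0 f00
  -- indicator functions at `x0`
  have hA : ∀ n : ℤ, c.v x0 + m ≤ n → ∀ g : Sp c, g.1 = ind c x0 n → g ∈ W := by
    intro n hn g hg
    obtain ⟨f', hf', hf1⟩ := k4_cut hN (1 - n) hf x0
    have h3 : g = (f.1 x0)⁻¹ • f' := by
      apply Subtype.ext
      funext y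
      change g.1 y = (f.1 x0)⁻¹ * f'.1 y
      rw [hg, hf1, sub_sub_cancel, ind, cut]
      split_ifs with h
      · rw [k4_loc h1 hx00 (P_mono hn h), inv_mul_cancel₀ hx0]
      · rw [mul_zero]
    rw [h3]
    exact W.smul_mem _ hf'
  -- indicator functions at `x`
  have hB : ∀ (x : D) (n : ℤ), x ≠ 0 → c.v x + m ≤ n → ∀ g : Sp c, g.1 = ind c x n → g ∈ W := by
    intro x n hx hn g hg
    have hlt : c.v x0 < n + c.v x0 - c.v x := by omega
    refine hT (x⁻¹ * x0) 1 ⟨ind c x0 (n + c.v x0 - c.v x), IsS_ind hx00 hlt⟩ g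
      (mul_ne_zero (inv_ne_zero hx) hx00) one_ne_zero (hA _ (by omega) _ rfl) ?_
    intro y
    rw [map_one, one_mul, inv_one, one_mul, hg]
    change ind c x n y = ind c x0 (n + c.v x0 - c.v x) (y * (x⁻¹ * x0))
    have h3 : y * (x⁻¹ * x0) - x0 = (y - x) * (x⁻¹ * x0) := by
      rw [sub_mul, mul_inv_cancel_left₀ hx]
    have hv : c.v (x⁻¹ * x0) = -c.v x + c.v x0 := by
      rw [c.v_mul _ _ (inv_ne_zero hx) hx00, v_inv hx]
    rw [ind, ind, h3]
    by_cases h : c.P n (y - x)
    · rw [if_pos h, if_pos]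
      exact P_mul' h (P_self (c := c) (x := x⁻¹ * x0)) (by omega)
    · rw [if_neg h, if_neg]
      intro h'
      apply h
      have h4 := P_of_mul_right (mul_ne_zero (inv_ne_zero hx) hx00) h'
      exact P_mono (by omega) h4
  rw [eq_top_iff]
  rintro g -
  obtain ⟨g00, m', hm', g1, g2⟩ := g.2
  obtain ⟨N, hN1, hN2⟩ : ∃ N : ℕ, m' + m ≤ N ∧ m' + m' ≤ N := ⟨m' + m' + m, by omega, by omega⟩
  obtain ⟨S, hS0, hS1, hS2, hS3⟩ := exists_reps c (-(m' : ℤ)) (m' + N)
  have hcast : -(m' : ℤ) + ((m' + N : ℕ) : ℤ) = N := by push_cast; omega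
  rw [hcast] at hS2 hS3
  have key : ∀ s : D, ∃ I ∈ W, ∀ y, I.1 y = g.1 s * ind c s N y := by
    intro s
    by_cases hs : g.1 s = 0
    · exact ⟨0, W.zero_mem, fun y => by rw [hs, zero_mul]; rfl⟩
    · have hs0 : s ≠ 0 := by
        intro h
        rw [h] at hs
        exact hs g00
      have h3 := g2 s hs
      refine ⟨g.1 s • ⟨ind c s N, IsS_ind hs0 (by omega)⟩, W.smul_mem _ ?_, fun y => rfl⟩
      exact hB s N hs0 (by omega) _ rfl
  choose I hI hI' using key
  have hsum : g = ∑ s ∈ S, I s := by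
    apply Subtype.ext
    funext y
    rw [Submodule.coe_sum, Finset.sum_apply, Finset.sum_congr rfl fun s _ => hI' s y]
    by_cases hy : ∃ s ∈ S, c.P N (y - s)
    · obtain ⟨s, hs, hys⟩ := hy
      rw [Finset.sum_eq_single s]
      · rw [ind, if_pos hys, mul_one]
        by_cases h3 : g.1 s = 0
        · rw [h3]
          by_contra h4
          have h5 := g2 y h4
          have hy0 : y ≠ 0 := by
            intro h
            rw [h] at h4
            exact h4 g00
          have h6 := k4_loc (c := c) (g := g.1) g1 hy0 (y := s)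
            (P_mono (by omega) (P_sub_comm hys))
          exact h4 (by rw [← h6, h3])
        · have h5 := g2 s h3
          have hs0 : s ≠ 0 := by
            intro h
            rw [h] at h3
            exact h3 g00
          exact k4_loc (c := c) (g := g.1) g1 hs0 (P_mono (by omega) hys)
      · intro s' hs' hne
        rw [ind, if_neg, mul_zero]
        intro h3
        apply hne
        apply hS3 s' hs' s hs
        have h4 : s' - s = (y - s) - (y - s') := by abel
        rw [h4]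
        exact P_sub hys h3
      · intro h
        exact absurd hs h
    · rw [Finset.sum_eq_zero]
      · by_contra h4
        have h5 := g2 y h4
        obtain ⟨s, hs, hys⟩ := hS2 y (Or.inr h5.1)
        exact hy ⟨s, hs, hys⟩
      · intro s hs
        rw [ind, if_neg fun h => hy ⟨s, hs, h⟩, mul_zero]
  rw [hsum]
  exact W.sum_mem fun s _ => hI s

end Pool.Agent.Helper42.QD
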